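import Pool.Agent.Lib.MP484c84Poly.Final

/-!
# The parity of the number of prime factors of `n ^ 2 + 1`

For every completely multiplicative `g` with values `1, -1` and `g p = -1` for one prime `p = 2` or
`p ≡ 1 (mod 4)`, each of the values `1` and `-1` is taken by `g (n ^ 2 + 1)` for at least
`x / (C p ^ 2 (1 + log x) ^ 92)` of the `n ≤ x`, once this quantity is at least `1`.
-/

set_option autoImplicit false

namespace Pool.Agent.Lib.MP_484c84_nt.OddParity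

open Pool.Agent.MP484c84Par Pool.Agent.MP484c84Poly Real

theorem result :
    ∃ C : ℝ, 0 < C ∧ ∀ g : ℕ → ℤ,
      (∀ n, 1 ≤ n → g n = 1 ∨ g n = -1) →
      (∀ a b, 1 ≤ a → 1 ≤ b → g (a * b) = g a * g b) →
      ∀ p : ℕ, p.Prime → (p = 2 ∨ p % 4 = 1) → g p = -1 →
      ∀ x : ℕ, C * (p : ℝ) ^ 2 * (1 + log x) ^ 92 ≤ x →
      ∀ ε : ℤ, (ε = 1 ∨ ε = -1) →
        (x : ℝ) / (C * (p : ℝ) ^ 2 * (1 + log x) ^ 92) ≤
          ((Finset.Icc 1 x).filter (fun n => g (n ^ 2 + 1) = ε)).card := by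
  refine ⟨2 * 10 ^ 58, by positivity, ?_⟩
  intro g h1 h2 p hp hp1 hgp x hx ε hε
  have hCM : CM g := ⟨h1, h2⟩
  have hp2 : (2 : ℝ) ≤ p := by exact_mod_cast hp.two_le
  have hlog0 : 0 ≤ log (x : ℝ) := Real.log_natCast_nonneg x
  have hΛ1 : (1 : ℝ) ≤ (1 + log x) ^ 92 := one_le_pow₀ (by linarith)
  obtain ⟨E, hE⟩ : ∃ E : ℝ, E = (p : ℝ) ^ 2 * (1 + log x) ^ 92 := ⟨_, rfl⟩
  have hE4 : 4 ≤ E := by
    rw [hE]
    calc (4 : ℝ) = 2 ^ 2 * 1 := by norm_num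
      _ ≤ (p : ℝ) ^ 2 * (1 + log x) ^ 92 := by gcongr
  have e1 : 2 * 10 ^ 58 * (p : ℝ) ^ 2 * (1 + log x) ^ 92 = 2 * 10 ^ 58 * E := by
    rw [hE]; ring
  rw [e1] at hx ⊢
  have hx0 : (0 : ℝ) < x := lt_of_lt_of_le (by positivity) hx
  have hx256 : 256 ≤ x := by
    have : (256 : ℝ) ≤ x := by
      refine le_trans ?_ hx
      nlinarith
    exact_mod_cast this
  rw [div_le_iff₀ (by positivity)]
  rcases hε with rfl | rfl
  · have h3 := plus_bound hCM hx256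
    have h4 : (((Finset.Icc 1 x).filter (fun n => g (n ^ 2 + 1) = 1)).card : ℝ) =
      (signSet g 1 x).card := rfl
    rw [h4]
    have h5 : (1 + log x) ^ 32 ≤ E := by
      have h6 : (1 + log (x : ℝ)) ^ 32 ≤ (1 + log x) ^ 92 :=
        pow_le_pow_right₀ (by linarith) (by norm_num)
      have h7 : (1 : ℝ) ≤ (p : ℝ) ^ 2 := one_le_pow₀ (by linarith)
      rw [hE]
      calc (1 + log (x : ℝ)) ^ 32 ≤ 1 * (1 + log x) ^ 92 := by rw [one_mul]; exact h6
        _ ≤ (p : ℝ) ^ 2 * (1 + log x) ^ 92 := by gcongr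
    calc (x : ℝ) ≤ 201326592 * (1 + log x) ^ 32 * (signSet g 1 x).card := h3
      _ ≤ (2 * 10 ^ 58) * E * (signSet g 1 x).card := by
          gcongr
          norm_num
      _ = (signSet g 1 x).card * (2 * 10 ^ 58 * E) := by ring
  · have h3 := minus_bound_poly hCM hp hp1 hgp (x := x) (by omega)
    have e2 : 10 ^ 58 * (p : ℝ) ^ 2 * (1 + log x) ^ 92 = 10 ^ 58 * E := by
      rw [hE]; ring
    rw [e2] at h3
    have h9 : (((Finset.Icc 1 x).filter (fun n => g (n ^ 2 + 1) = -1)).card : ℝ) =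
      (signSet g (-1) x).card := rfl
    rw [h9]
    obtain ⟨N, hN⟩ : ∃ N : ℝ, N = ((signSet g (-1) x).card : ℝ) := ⟨_, rfl⟩
    rw [← hN] at h3 ⊢
    have h5 : 2 * 10 ^ 58 * E ≤ 10 ^ 58 * E * (N + 1) := hx.trans h3
    have h6 : 0 < 10 ^ 58 * E := by positivity
    have h7 : 2 ≤ N + 1 := by
      have : 10 ^ 58 * E * 2 ≤ 10 ^ 58 * E * (N + 1) := by linarith
      exact le_of_mul_le_mul_left this h6
    have h8 : 10 ^ 58 * E * (N + 1) ≤ 10 ^ 58 * E * (2 * N) :=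
      mul_le_mul_of_nonneg_left (by linarith) h6.le
    linarith

end Pool.Agent.Lib.MP_484c84_nt.OddParity
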